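import Mathlib

/-!
# MP_60b600_ag: auxiliary algebra
-/

namespace Pool.Agent.Lib.MP_60b600_ag

open MvPolynomial

universe u

variable {K : Type u} [Field K]

/-- Restriction of a polynomial to a line. -/
theorem exists_line {m : ℕ} (g : MvPolynomial (Fin m) K) (a b : Fin m → K) :
    ∃ p : Polynomial K, ∀ τ, p.eval τ = eval (fun i => a i + τ * b i) g := by
  refine ⟨aeval (fun i => Polynomial.C (a i) + Polynomial.X * Polynomial.C (b i)) g, ?_⟩
  intro τ
  have h : ((Polynomial.evalRingHom τ).comp (aeval (R := K) (fun i => Polynomial.C (a i) +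
      Polynomial.X * Polynomial.C (b i))).toRingHom) = eval (fun i => a i + τ * b i) := by
    apply MvPolynomial.ringHom_ext
    · intro r
      simp
    · intro i
      simp
      exact mul_comm _ _
  exact congrArg (fun f => f g) h

/-- A line on which a polynomial has no zero: the polynomial is constant on this line. -/
theorem eval_line_eq [IsAlgClosed K] {m : ℕ} (g : MvPolynomial (Fin m) K) (a b : Fin m → K)
    (h : ∀ τ : K, eval (fun i => a i + τ * b i) g ≠ 0) (τ τ' : K) :
    eval (fun i => a i + τ * b i) g = eval (fun i => a i + τ' * b i) g := by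
  obtain ⟨p, hp⟩ := exists_line g a b
  rw [← hp, ← hp]
  by_cases hd : p.degree = 0
  · rw [Polynomial.eq_C_of_degree_eq_zero hd]
    simp
  · obtain ⟨x, hx⟩ := IsAlgClosed.exists_root p hd
    exact absurd (by rw [← hp]; exact hx) (h x)

/-- A polynomial in two variables over an algebraically closed field that vanishes at the origin
has another zero. -/
theorem exists_other_zero [IsAlgClosed K] (g : MvPolynomial (Fin 2) K)
    (h0 : eval (fun _ => (0 : K)) g = 0) : ∃ st : Fin 2 → K, st ≠ 0 ∧ eval st g = 0 := by
  by_contra hcon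
  push Not at hcon
  -- vertical lines
  have hv : ∀ s : K, s ≠ 0 → ∀ τ τ' : K, eval ![s, τ] g = eval ![s, τ'] g := by
    intro s hs τ τ'
    have key : ∀ t : K, (fun i => (![s, 0] : Fin 2 → K) i + t * (![0, 1] : Fin 2 → K) i) =
        ![s, t] := by
      intro t
      funext i
      fin_cases i <;> simp
    have := eval_line_eq g ![s, 0] ![0, 1] (fun t => by
      rw [key]
      apply hcon
      intro hz
      exact hs (congrFun hz 0)) τ τ'
    rwa [key, key] at this
  have hh : ∀ t : K, t ≠ 0 → ∀ τ τ' : K, eval ![τ, t] g = eval ![τ', t] g := by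
    intro t ht τ τ'
    have key : ∀ s : K, (fun i => (![0, t] : Fin 2 → K) i + s * (![1, 0] : Fin 2 → K) i) =
        ![s, t] := by
      intro s
      funext i
      fin_cases i <;> simp
    have := eval_line_eq g ![0, t] ![1, 0] (fun s => by
      rw [key]
      apply hcon
      intro hz
      exact ht (congrFun hz 1)) τ τ'
    rwa [key, key] at this
  obtain ⟨p, hp⟩ := exists_line g ![0, 0] ![1, 0]
  have key : ∀ s : K, (fun i => (![0, 0] : Fin 2 → K) i + s * (![1, 0] : Fin 2 → K) i) =
      ![s, 0] := by
    intro s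
    funext i
    fin_cases i <;> simp
  have hc : ∀ s : K, s ≠ 0 → p.eval s = eval ![0, 1] g := by
    intro s hs
    rw [hp, key, hv s hs 0 1, hh 1 one_ne_zero s 0]
  have hinf : ({s : K | s ≠ 0} : Set K).Infinite := by
    have : Infinite K := IsAlgClosed.instInfinite
    exact (Set.finite_singleton (0 : K)).infinite_compl
  have hp2 : p - Polynomial.C (eval ![0, 1] g) = 0 := by
    apply Polynomial.eq_zero_of_infinite_isRoot
    refine hinf.mono ?_
    intro s hs
    show (p - Polynomial.C (eval ![0, 1] g)).IsRoot s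
    rw [Polynomial.IsRoot, Polynomial.eval_sub, Polynomial.eval_C, hc s hs, sub_self]
  have h1 : p.eval 0 = eval ![0, 1] g := by
    rw [sub_eq_zero] at hp2
    rw [hp2, Polynomial.eval_C]
  rw [hp, key] at h1
  have h2 : (![0, 0] : Fin 2 → K) = fun _ => 0 := by
    funext i
    fin_cases i <;> rfl
  rw [h2, h0] at h1
  refine hcon ![0, 1] ?_ h1.symm
  intro hz
  exact one_ne_zero (congrFun hz 1)

/-- The four number lemma. -/
theorem four_number {B : Type*} [CommRing B] [IsDomain B] [DecompositionMonoid B]
    {x y z w : B} (h : x * y = z * w) :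
    ∃ α β γ δ : B, x = α * β ∧ y = γ * δ ∧ z = α * γ ∧ w = β * δ := by
  by_cases hx : x = 0
  · subst hx
    rw [zero_mul] at h
    rcases mul_eq_zero.1 h.symm with hz | hw
    · subst hz
      exact ⟨0, w, y, 1, by simp, by simp, by simp, by simp⟩
    · subst hw
      exact ⟨z, 0, 1, y, by simp, by simp, by simp, by simp⟩
  · have hdvd : x ∣ z * w := ⟨y, h.symm⟩
    obtain ⟨α, β, ⟨γ, hγ⟩, ⟨δ, hδ⟩, hαβ⟩ := exists_dvd_and_dvd_of_dvd_mul hdvd
    refine ⟨α, β, γ, δ, hαβ, ?_, hγ, hδ⟩
    apply mul_left_cancel₀ hx
    rw [h, hγ, hδ, hαβ]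
    ring

/-- A surjection `T : E → K⁴` from an eight-dimensional space: dual vectors and a basis of the
kernel. -/
theorem exists_frame {E : Type*} [AddCommGroup E] [Module K E] [FiniteDimensional K E]
    (T : E →ₗ[K] (Fin 4 → K)) (hE : Module.finrank K E = 8)
    (hk : Module.finrank K (LinearMap.ker T) ≤ 4) :
    ∃ v y : Fin 4 → E, (∀ i, T (v i) = Pi.single i 1) ∧ (∀ i, T (y i) = 0) ∧
      LinearIndependent K y := by
  have h1 := LinearMap.finrank_range_add_finrank_ker T
  have h2 : Module.finrank K (LinearMap.range T) ≤ 4 := by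
    have := Submodule.finrank_le (LinearMap.range T)
    rwa [Module.finrank_fin_fun] at this
  have h3 : Module.finrank K (LinearMap.range T) = 4 := by omega
  have h4 : Module.finrank K (LinearMap.ker T) = 4 := by omega
  have h5 : LinearMap.range T = ⊤ := by
    apply Submodule.eq_top_of_finrank_eq
    rw [h3, Module.finrank_fin_fun]
  have h6 : Function.Surjective T := LinearMap.range_eq_top.1 h5
  choose v hv using fun i : Fin 4 => h6 (Pi.single i 1)
  let b := Module.finBasisOfFinrankEq K (LinearMap.ker T) h4
  refine ⟨v, fun i => (b i : E), hv, fun i => (b i).2, ?_⟩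
  exact b.linearIndependent.map' (LinearMap.ker T).subtype (Submodule.ker_subtype _)

end Pool.Agent.Lib.MP_60b600_ag
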