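import Pool.Agent.Lib.MP_60b600_ag.Irred
import Pool.Agent.Lib.MP_60b600_ag.Tools

/-!
# MP_60b600_ag: the two-parameter family of six-dimensional subspaces
-/

namespace Pool.Agent.Lib.MP_60b600_ag

open MvPolynomial

universe u

variable {K : Type u} [Field K]

/-- the parameter ring `K[s,t]` -/
abbrev Par (K : Type u) [Field K] : Type u := MvPolynomial (Fin 2) K

/-- polynomials in six variables over `K[s,t]` -/
abbrev Big (K : Type u) [Field K] : Type u := MvPolynomial (Fin 6) (MvPolynomial (Fin 2) K)

/-- specialization at a parameter -/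
noncomputable def spec (st : Fin 2 → K) : Big K →+* MvPolynomial (Fin 6) K :=
  MvPolynomial.map (MvPolynomial.eval st)

/-- the columns of the substitution -/
noncomputable def col (v y : Fin 4 → Idx → K) : Fin 6 → Idx → Par K :=
  ![fun j => C (v 0 j) * X 0 - C (v 3 j) * X 1,
    fun j => C (v 1 j) * X 1 + C (v 2 j) * X 0,
    fun j => C (y 0 j), fun j => C (y 1 j), fun j => C (y 2 j), fun j => C (y 3 j)]

/-- the substitution `K[8 variables] → K[s,t][6 variables]` -/
noncomputable def subst (v y : Fin 4 → Idx → K) : MvPolynomial Idx K →+* Big K :=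
  eval₂Hom ((C : Par K →+* Big K).comp C) (fun j => ∑ k : Fin 6, C (col v y k j) * X k)

/-- the columns at a parameter -/
noncomputable def colAt (v y : Fin 4 → Idx → K) (st : Fin 2 → K) : Fin 6 → Idx → K :=
  ![st 0 • v 0 - st 1 • v 3, st 1 • v 1 + st 0 • v 2, y 0, y 1, y 2, y 3]

/-- the linear map `K⁶ → K⁸` at a parameter -/
noncomputable def iota (v y : Fin 4 → Idx → K) (st : Fin 2 → K) : (Fin 6 → K) →ₗ[K] (Idx → K) :=
  Fintype.linearCombination K (colAt v y st)

theorem iota_apply (v y : Fin 4 → Idx → K) (st : Fin 2 → K) (x : Fin 6 → K) :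
    iota v y st x = x 0 • (st 0 • v 0 - st 1 • v 3) + x 1 • (st 1 • v 1 + st 0 • v 2) +
      (x 2 • y 0 + x 3 • y 1 + x 4 • y 2 + x 5 • y 3) := by
  rw [iota, Fintype.linearCombination_apply, Fin.sum_univ_six]
  simp only [colAt]
  simp
  abel

theorem eval_col (v y : Fin 4 → Idx → K) (st : Fin 2 → K) (k : Fin 6) (j : Idx) :
    eval st (col v y k j) = colAt v y st k j := by
  fin_cases k <;> simp [col, colAt, mul_comm]

theorem eval_spec_subst (v y : Fin 4 → Idx → K) (st : Fin 2 → K) (x : Fin 6 → K)
    (F : MvPolynomial Idx K) :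
    eval x (spec st (subst v y F)) = eval (iota v y st x) F := by
  have h : ((eval x).comp ((spec st).comp (subst v y))) = eval (iota v y st x) := by
    apply MvPolynomial.ringHom_ext
    · intro r
      simp [spec, subst]
    · intro j
      simp only [RingHom.comp_apply, spec, subst, eval₂Hom_X', map_sum, map_mul, map_C, map_X,
        eval_C, eval_X, eval_col]
      rw [iota, Fintype.linearCombination_apply]
      simp [Finset.sum_apply, mul_comm]
  exact congrArg (fun f => f F) h

/-- equality in the big ring can be checked on values -/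
theorem big_ext [Infinite K] {p q : Big K}
    (h : ∀ st x, eval x (spec st p) = eval x (spec st q)) : p = q := by
  apply MvPolynomial.ext
  intro m
  apply MvPolynomial.funext
  intro st
  have h1 : spec st p = spec st q := MvPolynomial.funext (fun x => h st x)
  have h2 := congrArg (coeff m) h1
  simpa [spec, coeff_map] using h2

theorem subst_isHomogeneous (v y : Fin 4 → Idx → K) :
    (subst v y (cubicH K)).IsHomogeneous 3 := by
  have h := (cubicH_isHomogeneous (K := K)).eval₂ (n := 1)
    ((C : Par K →+* Big K).comp C) (fun j => ∑ k : Fin 6, C (col v y k j) * X k)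
    (fun r => isHomogeneous_C _ _)
    (fun j => IsHomogeneous.sum _ _ _ (fun k _ => (isHomogeneous_X _ k).C_mul _))
  rw [one_mul] at h
  exact h

/-- A nonzero-degree coefficient forces the total degree to be positive. -/
theorem totalDegree_ne_zero_of_coeff {σ R : Type*} [CommSemiring R] {p : MvPolynomial σ R}
    {m : σ →₀ ℕ} (hm : m ≠ 0) (h : coeff m p ≠ 0) : p.totalDegree ≠ 0 := by
  classical
  intro h0
  rw [totalDegree_eq_zero_iff_eq_C] at h0
  rw [h0, coeff_C, if_neg (Ne.symm hm)] at h
  exact h rfl

/-- The main step: there is no decomposition of `H` of the normalized shape with one nonzero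
constant term. -/
theorem core [IsAlgClosed K] {a1 r1 a2 b2 a3 b3 q1 q2 q3 r2 r3 : MvPolynomial Idx K}
    (ha2 : a2.IsHomogeneous 1) (hb2 : b2.IsHomogeneous 1)
    (ha3 : a3.IsHomogeneous 1) (hb3 : b3.IsHomogeneous 1)
    (c : K) (hr1 : r1 = C c * (a2 * b2 + a3 * b3))
    (hH : cubicH K = a1 * r1 + q2 * b2 + a2 * r2 + q3 * b3 + a3 * r3)
    (h4 : q1 * r1 + q2 * r2 + q3 * r3 = 0) : False := by
  have hinf : Infinite K := IsAlgClosed.instInfinite
  obtain ⟨la2, hla2⟩ := exists_linear ha2
  obtain ⟨lb2, hlb2⟩ := exists_linear hb2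
  obtain ⟨la3, hla3⟩ := exists_linear ha3
  obtain ⟨lb3, hlb3⟩ := exists_linear hb3
  let T : (Idx → K) →ₗ[K] (Fin 4 → K) := LinearMap.pi ![la2, lb2, la3, lb3]
  have hT0 : ∀ p, T p 0 = la2 p := fun p => rfl
  have hT1 : ∀ p, T p 1 = lb2 p := fun p => rfl
  have hT2 : ∀ p, T p 2 = la3 p := fun p => rfl
  have hT3 : ∀ p, T p 3 = lb3 p := fun p => rfl
  have hker : Module.finrank K (LinearMap.ker T) ≤ 4 := by
    apply finrank_le_four
    intro p hp
    have hp' : T p = 0 := hp
    have e0 : la2 p = 0 := by rw [← hT0, hp']; rfl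
    have e1 : lb2 p = 0 := by rw [← hT1, hp']; rfl
    have e2 : la3 p = 0 := by rw [← hT2, hp']; rfl
    have e3 : lb3 p = 0 := by rw [← hT3, hp']; rfl
    rw [hH, hr1]
    simp only [map_add, map_mul, hla2, hlb2, hla3, hlb3, e0, e1, e2, e3]
    ring
  obtain ⟨v, y, hv, hy, hli⟩ := exists_frame T (by simp) hker
  have hTi : ∀ st x, T (iota v y st x) = ![st 0 * x 0, st 1 * x 1, st 0 * x 1, -(st 1 * x 0)] := by
    intro st x
    rw [iota_apply]
    simp only [map_add, map_smul, map_sub, hv, hy, smul_zero, add_zero]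
    funext i
    fin_cases i <;> simp [mul_comm]
  have va2 : ∀ st x, eval (iota v y st x) a2 = st 0 * x 0 := by
    intro st x
    rw [hla2, ← hT0, hTi]; rfl
  have vb2 : ∀ st x, eval (iota v y st x) b2 = st 1 * x 1 := by
    intro st x
    rw [hlb2, ← hT1, hTi]; rfl
  have va3 : ∀ st x, eval (iota v y st x) a3 = st 0 * x 1 := by
    intro st x
    rw [hla3, ← hT2, hTi]; rfl
  have vb3 : ∀ st x, eval (iota v y st x) b3 = -(st 1 * x 0) := by
    intro st x
    rw [hlb3, ← hT3, hTi]; rfl
  have hinj : ∀ st : Fin 2 → K, st ≠ 0 → Function.Injective (iota v y st) := by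
    intro st hst
    rw [injective_iff_map_eq_zero]
    intro x hx
    have h1 : T (iota v y st x) = 0 := by rw [hx, map_zero]
    rw [hTi] at h1
    have c0 : st 0 * x 0 = 0 := congrFun h1 0
    have c1 : st 1 * x 1 = 0 := congrFun h1 1
    have c2 : st 0 * x 1 = 0 := congrFun h1 2
    have c3 : -(st 1 * x 0) = 0 := congrFun h1 3
    have hst' : st 0 ≠ 0 ∨ st 1 ≠ 0 := by
      by_contra hcon
      push Not at hcon
      apply hst
      funext i
      fin_cases i
      · exact hcon.1
      · exact hcon.2
    have hx01 : x 0 = 0 ∧ x 1 = 0 := by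
      rcases hst' with h | h
      · exact ⟨(mul_eq_zero.1 c0).resolve_left h, (mul_eq_zero.1 c2).resolve_left h⟩
      · exact ⟨(mul_eq_zero.1 (neg_eq_zero.1 c3)).resolve_left h,
          (mul_eq_zero.1 c1).resolve_left h⟩
    rw [iota_apply, hx01.1, hx01.2, zero_smul, zero_smul, zero_add, zero_add] at hx
    rw [Fintype.linearIndependent_iff] at hli
    have h5 := hli ![x 2, x 3, x 4, x 5] (by
      rw [Fin.sum_univ_four]
      exact hx)
    funext i
    fin_cases i
    · exact hx01.1
    · exact hx01.2
    · exact h5 0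
    · exact h5 1
    · exact h5 2
    · exact h5 3
  -- the images of the linear forms
  set S : Big K := C (X 0) with hS
  set U : Big K := C (X 1) with hU
  have hSv : ∀ st, spec st S = C (st 0) := by intro st; simp [hS, spec]
  have hUv : ∀ st, spec st U = C (st 1) := by intro st; simp [hU, spec]
  have hXv : ∀ (st : Fin 2 → K) (k : Fin 6), spec st (X k) = X k := by
    intro st k; simp [spec]
  have Pa2 : subst v y a2 = S * X 0 := by
    apply big_ext
    intro st x
    rw [eval_spec_subst, va2, map_mul, hSv, hXv]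
    simp
  have Pb2 : subst v y b2 = U * X 1 := by
    apply big_ext
    intro st x
    rw [eval_spec_subst, vb2, map_mul, hUv, hXv]
    simp
  have Pa3 : subst v y a3 = S * X 1 := by
    apply big_ext
    intro st x
    rw [eval_spec_subst, va3, map_mul, hSv, hXv]
    simp
  have Pb3 : subst v y b3 = -(U * X 0) := by
    apply big_ext
    intro st x
    rw [eval_spec_subst, vb3, map_neg, map_mul, hUv, hXv]
    simp
  have Pr1 : subst v y r1 = 0 := by
    rw [hr1, map_mul, map_add, map_mul, map_mul, Pa2, Pb2, Pa3, Pb3]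
    ring
  have h4' : subst v y q2 * subst v y r2 = subst v y q3 * (-(subst v y r3)) := by
    have := congrArg (subst v y) h4
    rw [map_add, map_add, map_mul, map_mul, map_mul, Pr1, map_zero] at this
    linear_combination this
  obtain ⟨α, β, γ, δ, h1, h2, h3, h5⟩ := four_number h4'
  have hfac : subst v y (cubicH K) = (α * U - S * δ) * (β * X 1 - γ * X 0) := by
    have := congrArg (subst v y) hH
    simp only [map_add, map_mul] at this
    rw [this, Pr1, Pa2, Pb2, Pa3, Pb3, h1, h2, h3]
    linear_combination (-(S * X 1)) * h5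
  set G1 := α * U - S * δ with hG1
  set G2 := β * X 1 - γ * X 0 with hG2
  have hne : ∀ st : Fin 2 → K, st ≠ 0 → spec st (subst v y (cubicH K)) ≠ 0 := fun st hst =>
    restriction_ne_zero (iota v y st) (hinj st hst) (fun x => eval_spec_subst v y st x _)
  have hirr : ∀ st : Fin 2 → K, st ≠ 0 →
      (spec st G1).totalDegree = 0 ∨ (spec st G2).totalDegree = 0 := fun st hst =>
    restriction_irred ((subst_isHomogeneous v y).map _) (iota v y st) (hinj st hst)
      (fun x => eval_spec_subst v y st x _) (spec st G1) (spec st G2)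
      (by rw [← map_mul, ← hfac]; rfl)
  -- one of the factors has only a constant coefficient
  have halt : (∀ m : Fin 6 →₀ ℕ, m ≠ 0 → coeff m G1 = 0) ∨
      (∀ m : Fin 6 →₀ ℕ, m ≠ 0 → coeff m G2 = 0) := by
    by_contra hcon
    push Not at hcon
    obtain ⟨⟨m1, hm1, hc1⟩, ⟨m2, hm2, hc2⟩⟩ := hcon
    have hprod : (X 0 : Par K) * coeff m1 G1 * coeff m2 G2 ≠ 0 :=
      mul_ne_zero (mul_ne_zero (X_ne_zero 0) hc1) hc2
    obtain ⟨st, hst⟩ : ∃ st : Fin 2 → K,
        eval st ((X 0 : Par K) * coeff m1 G1 * coeff m2 G2) ≠ 0 := by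
      by_contra hall
      push Not at hall
      exact hprod (MvPolynomial.funext (fun st => by rw [hall st, map_zero]))
    rw [map_mul, map_mul, eval_X] at hst
    have hs0 : st 0 ≠ 0 := fun h => hst (by rw [h]; ring)
    have hs1 : eval st (coeff m1 G1) ≠ 0 := fun h => hst (by rw [h]; ring)
    have hs2 : eval st (coeff m2 G2) ≠ 0 := fun h => hst (by rw [h]; ring)
    have hst0 : st ≠ 0 := fun h => hs0 (by rw [h]; rfl)
    rcases hirr st hst0 with h | h
    · refine totalDegree_ne_zero_of_coeff hm1 ?_ h
      rw [spec, coeff_map]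
      exact hs1
    · refine totalDegree_ne_zero_of_coeff hm2 ?_ h
      rw [spec, coeff_map]
      exact hs2
  have h10 : (![1, 0] : Fin 2 → K) ≠ 0 := fun h => one_ne_zero (congrFun h 0)
  rcases halt with hc | hc
  · -- `G1` is a constant polynomial
    have hG1C : G1 = C (coeff 0 G1) := by
      apply MvPolynomial.ext
      intro m
      rw [coeff_C]
      by_cases hm : m = 0
      · subst hm; simp
      · rw [if_neg (Ne.symm hm), hc m hm]
    obtain ⟨st, hst0, hst⟩ := exists_other_zero (coeff 0 G1) (by
      rw [hG1, hS, hU, mul_comm α]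
      simp [coeff_C_mul])
    apply hne st hst0
    rw [hfac, map_mul, hG1C]
    rw [show spec st (C (coeff 0 G1)) = C (eval st (coeff 0 G1)) by simp [spec], hst]
    simp
  · have hG2C : G2 = 0 := by
      apply MvPolynomial.ext
      intro m
      by_cases hm : m = 0
      · subst hm
        have h0 : constantCoeff G2 = 0 := by rw [hG2]; simp
        rw [← constantCoeff_eq, h0, map_zero]
      · rw [hc m hm]; simp
    apply hne ![1, 0] h10
    rw [hfac, hG2C, mul_zero, map_zero]

end Pool.Agent.Lib.MP_60b600_ag
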