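import Mathlib

/-!
# MP_60b600_ag: definitions

Schmidt rank of a polynomial, families of polynomials over affine space, the locus where the
Schmidt rank is maximal, and the Zariski topology on `Kᵐ`.
-/

namespace Pool.Agent.Lib.MP_60b600_ag

open MvPolynomial

universe u

variable {K : Type u} [Field K] {n m : ℕ}

/-- `P` is a sum of `r` products of two polynomials, each factor of total degree strictly smaller
than the total degree of `P`. -/
def HasDecomp (P : MvPolynomial (Fin n) K) (r : ℕ) : Prop :=
  ∃ Q R : Fin r → MvPolynomial (Fin n) K,
    (∀ i, (Q i).totalDegree < P.totalDegree ∧ (R i).totalDegree < P.totalDegree) ∧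
      P = ∑ i, Q i * R i

/-- The Schmidt rank: the least `r` such that `P` is a sum of `r` products of two polynomials of
degree smaller than that of `P`. -/
noncomputable def schmidtRank (P : MvPolynomial (Fin n) K) : ℕ := sInf {r | HasDecomp P r}

/-- The member at the point `s ∈ Kᵐ` of a family of polynomials in `n` variables whose
coefficients are regular (polynomial) functions on `Kᵐ`. -/
noncomputable def member (P : MvPolynomial (Fin n) (MvPolynomial (Fin m) K)) (s : Fin m → K) :
    MvPolynomial (Fin n) K :=
  MvPolynomial.map (MvPolynomial.eval s) P

/-- The set of the parameters `t` at which the Schmidt rank is maximal: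
`r(P_s) ≤ r(P_t)` for all `s`. -/
def maxRankLocus (P : MvPolynomial (Fin n) (MvPolynomial (Fin m) K)) : Set (Fin m → K) :=
  {t | ∀ s, schmidtRank (member P s) ≤ schmidtRank (member P t)}

/-- The Zariski topology on `Kᵐ`: the topology generated by the sets where a polynomial does not
vanish. -/
@[reducible] def zariski (K : Type u) [Field K] (m : ℕ) : TopologicalSpace (Fin m → K) :=
  TopologicalSpace.generateFrom
    {U | ∃ f : MvPolynomial (Fin m) K, U = {x | MvPolynomial.eval x f ≠ 0}}

end Pool.Agent.Lib.MP_60b600_ag
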