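import Pool.Agent.Lib.MP_60b600_ag.Core

/-!
# MP_60b600_ag: the cubic `H` is not a sum of three products of polynomials of degree at most two
-/

namespace Pool.Agent.Lib.MP_60b600_ag

open MvPolynomial

universe u

variable {K : Type u} [Field K]

section components

variable {σ : Type*}

theorem hc0_mul (p q : MvPolynomial σ K) : homogeneousComponent 0 (p * q) =
    homogeneousComponent 0 p * homogeneousComponent 0 q := by
  rw [hc_mul, Finset.Nat.sum_antidiagonal_eq_sum_range_succ
    (fun i j => homogeneousComponent i p * homogeneousComponent j q)]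
  simp only [Finset.sum_range_succ, Finset.sum_range_zero]
  simp only [Nat.sub_zero, zero_add]

theorem hc1_mul (p q : MvPolynomial σ K) : homogeneousComponent 1 (p * q) =
    homogeneousComponent 0 p * homogeneousComponent 1 q +
      homogeneousComponent 1 p * homogeneousComponent 0 q := by
  rw [hc_mul, Finset.Nat.sum_antidiagonal_eq_sum_range_succ
    (fun i j => homogeneousComponent i p * homogeneousComponent j q)]
  simp only [Finset.sum_range_succ, Finset.sum_range_zero]
  simp only [Nat.sub_zero, zero_add, Nat.sub_self]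

theorem hc2_mul (p q : MvPolynomial σ K) : homogeneousComponent 2 (p * q) =
    homogeneousComponent 0 p * homogeneousComponent 2 q +
      homogeneousComponent 1 p * homogeneousComponent 1 q +
      homogeneousComponent 2 p * homogeneousComponent 0 q := by
  rw [hc_mul, Finset.Nat.sum_antidiagonal_eq_sum_range_succ
    (fun i j => homogeneousComponent i p * homogeneousComponent j q)]
  simp only [Finset.sum_range_succ, Finset.sum_range_zero]
  simp only [Nat.sub_zero, zero_add, Nat.sub_self, Nat.reduceSub]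

theorem hc3_mul {p q : MvPolynomial σ K} (hp : p.totalDegree ≤ 2) (hq : q.totalDegree ≤ 2) :
    homogeneousComponent 3 (p * q) =
      homogeneousComponent 1 p * homogeneousComponent 2 q +
      homogeneousComponent 2 p * homogeneousComponent 1 q := by
  have h1 : homogeneousComponent 3 p = 0 := homogeneousComponent_eq_zero _ _ (by omega)
  have h2 : homogeneousComponent 3 q = 0 := homogeneousComponent_eq_zero _ _ (by omega)
  rw [hc_mul, Finset.Nat.sum_antidiagonal_eq_sum_range_succ
    (fun i j => homogeneousComponent i p * homogeneousComponent j q)]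
  simp only [Finset.sum_range_succ, Finset.sum_range_zero]
  simp only [Nat.sub_zero, zero_add, Nat.sub_self, Nat.reduceSub, h1, h2, mul_zero, zero_mul,
    add_zero]

theorem hc4_mul {p q : MvPolynomial σ K} (hp : p.totalDegree ≤ 2) (hq : q.totalDegree ≤ 2) :
    homogeneousComponent 4 (p * q) =
      homogeneousComponent 2 p * homogeneousComponent 2 q := by
  have h1 : homogeneousComponent 3 p = 0 := homogeneousComponent_eq_zero _ _ (by omega)
  have h2 : homogeneousComponent 3 q = 0 := homogeneousComponent_eq_zero _ _ (by omega)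
  have h3 : homogeneousComponent 4 p = 0 := homogeneousComponent_eq_zero _ _ (by omega)
  have h4 : homogeneousComponent 4 q = 0 := homogeneousComponent_eq_zero _ _ (by omega)
  rw [hc_mul, Finset.Nat.sum_antidiagonal_eq_sum_range_succ
    (fun i j => homogeneousComponent i p * homogeneousComponent j q)]
  simp only [Finset.sum_range_succ, Finset.sum_range_zero]
  simp only [Nat.sub_zero, zero_add, Nat.sub_self, Nat.reduceSub, h1, h2, h3, h4, mul_zero,
    zero_mul, add_zero]

end components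

theorem hc_cubicH (k : ℕ) : homogeneousComponent k (cubicH K) = if k = 3 then cubicH K else 0 :=
  homogeneousComponent_of_mem cubicH_isHomogeneous

/-- The case in which only one factor has a nonzero constant term. -/
theorem caseTwo_normalized [IsAlgClosed K] {Q1 R1 Q2 R2 Q3 R3 : MvPolynomial Idx K}
    (dQ1 : Q1.totalDegree ≤ 2) (dR1 : R1.totalDegree ≤ 2)
    (dQ2 : Q2.totalDegree ≤ 2) (dR2 : R2.totalDegree ≤ 2)
    (dQ3 : Q3.totalDegree ≤ 2) (dR3 : R3.totalDegree ≤ 2)
    (hH : cubicH K = Q1 * R1 + Q2 * R2 + Q3 * R3)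
    (cQ1 : coeff 0 Q1 ≠ 0) (cQ2 : coeff 0 Q2 = 0) (cR2 : coeff 0 R2 = 0)
    (cQ3 : coeff 0 Q3 = 0) (cR3 : coeff 0 R3 = 0) : False := by
  have zQ2 : homogeneousComponent 0 Q2 = 0 := by rw [homogeneousComponent_zero, cQ2, C_0]
  have zR2 : homogeneousComponent 0 R2 = 0 := by rw [homogeneousComponent_zero, cR2, C_0]
  have zQ3 : homogeneousComponent 0 Q3 = 0 := by rw [homogeneousComponent_zero, cQ3, C_0]
  have zR3 : homogeneousComponent 0 R3 = 0 := by rw [homogeneousComponent_zero, cR3, C_0]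
  have zQ1 : homogeneousComponent 0 Q1 = C (coeff 0 Q1) := homogeneousComponent_zero _
  have hCne : (C (coeff 0 Q1) : MvPolynomial Idx K) ≠ 0 := by
    intro h
    exact cQ1 (C_injective _ _ (by rw [h, C_0]))
  have e0 := congrArg (homogeneousComponent 0) hH
  have e1 := congrArg (homogeneousComponent 1) hH
  have e2 := congrArg (homogeneousComponent 2) hH
  have e3 := congrArg (homogeneousComponent 3) hH
  have e4 := congrArg (homogeneousComponent 4) hH
  rw [hc_cubicH, if_neg (by norm_num), map_add, map_add, hc0_mul, hc0_mul, hc0_mul, zQ2, zQ3,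
    zero_mul, zero_mul, add_zero, add_zero] at e0
  have zR1 : homogeneousComponent 0 R1 = 0 := by
    rw [zQ1] at e0
    exact (mul_eq_zero.1 e0.symm).resolve_left hCne
  rw [hc_cubicH, if_neg (by norm_num), map_add, map_add, hc1_mul, hc1_mul, hc1_mul, zQ2, zQ3,
    zR1, zR2, zR3, zero_mul, zero_mul, mul_zero, mul_zero, mul_zero, add_zero, add_zero, add_zero,
    add_zero] at e1
  have bR1 : homogeneousComponent 1 R1 = 0 := by
    rw [zQ1] at e1
    exact (mul_eq_zero.1 e1.symm).resolve_left hCne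
  rw [hc_cubicH, if_neg (by norm_num), map_add, map_add, hc2_mul, hc2_mul, hc2_mul, zQ2, zQ3,
    zR1, zR2, zR3, bR1, zQ1] at e2
  rw [hc_cubicH, if_pos rfl, map_add, map_add, hc3_mul dQ1 dR1, hc3_mul dQ2 dR2, hc3_mul dQ3 dR3,
    bR1] at e3
  rw [hc_cubicH, if_neg (by norm_num), map_add, map_add, hc4_mul dQ1 dR1, hc4_mul dQ2 dR2,
    hc4_mul dQ3 dR3] at e4
  refine core (a1 := homogeneousComponent 1 Q1) (r1 := homogeneousComponent 2 R1)
    (a2 := homogeneousComponent 1 Q2) (b2 := homogeneousComponent 1 R2)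
    (a3 := homogeneousComponent 1 Q3) (b3 := homogeneousComponent 1 R3)
    (q1 := homogeneousComponent 2 Q1) (q2 := homogeneousComponent 2 Q2)
    (q3 := homogeneousComponent 2 Q3) (r2 := homogeneousComponent 2 R2)
    (r3 := homogeneousComponent 2 R3)
    (homogeneousComponent_isHomogeneous _ _) (homogeneousComponent_isHomogeneous _ _)
    (homogeneousComponent_isHomogeneous _ _) (homogeneousComponent_isHomogeneous _ _)
    (-(coeff 0 Q1)⁻¹) ?_ ?_ e4.symm
  · apply mul_left_cancel₀ hCne
    rw [← mul_assoc, ← C_mul, mul_neg, mul_inv_cancel₀ cQ1, C_neg, C_1]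
    linear_combination -e2
  · rw [e3]
    ring

/-- The case in which the first factor has a nonzero constant term. -/
theorem caseTwo [IsAlgClosed K] {Q1 R1 Q2 R2 Q3 R3 : MvPolynomial Idx K}
    (dQ1 : Q1.totalDegree ≤ 2) (dR1 : R1.totalDegree ≤ 2)
    (dQ2 : Q2.totalDegree ≤ 2) (dR2 : R2.totalDegree ≤ 2)
    (dQ3 : Q3.totalDegree ≤ 2) (dR3 : R3.totalDegree ≤ 2)
    (hH : cubicH K = Q1 * R1 + Q2 * R2 + Q3 * R3)
    (cQ1 : coeff 0 Q1 ≠ 0) : False := by
  have key : ∀ P : MvPolynomial Idx K, P.totalDegree ≤ 2 → ∃ c : K,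
      (P - C c * Q1).totalDegree ≤ 2 ∧ coeff 0 (P - C c * Q1) = 0 := by
    intro P hP
    refine ⟨coeff 0 P / coeff 0 Q1, ?_, ?_⟩
    · refine (totalDegree_sub _ _).trans (max_le hP ?_)
      refine (totalDegree_mul _ _).trans ?_
      rw [totalDegree_C, zero_add]
      exact dQ1
    · rw [coeff_sub, coeff_C_mul, div_mul_cancel₀ _ cQ1, sub_self]
  obtain ⟨c2, hc2, hc2'⟩ := key Q2 dQ2
  obtain ⟨d2, hd2, hd2'⟩ := key R2 dR2
  obtain ⟨c3, hc3, hc3'⟩ := key Q3 dQ3
  obtain ⟨d3, hd3, hd3'⟩ := key R3 dR3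
  have hCm : ∀ (c : K) (P : MvPolynomial Idx K), P.totalDegree ≤ 2 →
      (C c * P).totalDegree ≤ 2 := by
    intro c P hP
    refine (totalDegree_mul _ _).trans ?_
    rw [totalDegree_C, zero_add]
    exact hP
  refine caseTwo_normalized (Q1 := Q1)
    (R1 := R1 + C c2 * (R2 - C d2 * Q1) + C d2 * (Q2 - C c2 * Q1) + C (c2 * d2) * Q1 +
      (C c3 * (R3 - C d3 * Q1) + C d3 * (Q3 - C c3 * Q1) + C (c3 * d3) * Q1))
    dQ1 ?_ hc2 hd2 hc3 hd3 ?_ cQ1 hc2' hd2' hc3' hd3'
  · refine (totalDegree_add _ _).trans (max_le ?_ ?_)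
    · refine (totalDegree_add _ _).trans (max_le ?_ (hCm _ _ dQ1))
      refine (totalDegree_add _ _).trans (max_le ?_ (hCm _ _ hc2))
      exact (totalDegree_add _ _).trans (max_le dR1 (hCm _ _ hd2))
    · refine (totalDegree_add _ _).trans (max_le ?_ (hCm _ _ dQ1))
      exact (totalDegree_add _ _).trans (max_le (hCm _ _ hd3) (hCm _ _ hc3))
  · rw [hH, C_mul, C_mul]
    ring

/-- `H` is not a sum of three products of polynomials of degree at most two. -/
theorem no_three [IsAlgClosed K] {Q1 R1 Q2 R2 Q3 R3 : MvPolynomial Idx K}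
    (dQ1 : Q1.totalDegree ≤ 2) (dR1 : R1.totalDegree ≤ 2)
    (dQ2 : Q2.totalDegree ≤ 2) (dR2 : R2.totalDegree ≤ 2)
    (dQ3 : Q3.totalDegree ≤ 2) (dR3 : R3.totalDegree ≤ 2) :
    cubicH K ≠ Q1 * R1 + Q2 * R2 + Q3 * R3 := by
  intro hH
  have cQ1 : coeff 0 Q1 = 0 := by
    by_contra h
    exact caseTwo dQ1 dR1 dQ2 dR2 dQ3 dR3 hH h
  have cR1 : coeff 0 R1 = 0 := by
    by_contra h
    exact caseTwo dR1 dQ1 dQ2 dR2 dQ3 dR3 (by rw [hH]; ring) h
  have cQ2 : coeff 0 Q2 = 0 := by
    by_contra h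
    exact caseTwo dQ2 dR2 dQ1 dR1 dQ3 dR3 (by rw [hH]; ring) h
  have cR2 : coeff 0 R2 = 0 := by
    by_contra h
    exact caseTwo dR2 dQ2 dQ1 dR1 dQ3 dR3 (by rw [hH]; ring) h
  have cQ3 : coeff 0 Q3 = 0 := by
    by_contra h
    exact caseTwo dQ3 dR3 dQ1 dR1 dQ2 dR2 (by rw [hH]; ring) h
  have cR3 : coeff 0 R3 = 0 := by
    by_contra h
    exact caseTwo dR3 dQ3 dQ1 dR1 dQ2 dR2 (by rw [hH]; ring) h
  have z : ∀ P : MvPolynomial Idx K, coeff 0 P = 0 → homogeneousComponent 0 P = 0 := by
    intro P hP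
    rw [homogeneousComponent_zero, hP, C_0]
  have e2 := congrArg (homogeneousComponent 2) hH
  have e3 := congrArg (homogeneousComponent 3) hH
  rw [hc_cubicH, if_neg (by norm_num), map_add, map_add, hc2_mul, hc2_mul, hc2_mul, z _ cQ1,
    z _ cR1, z _ cQ2, z _ cR2, z _ cQ3, z _ cR3] at e2
  rw [hc_cubicH, if_pos rfl, map_add, map_add, hc3_mul dQ1 dR1, hc3_mul dQ2 dR2,
    hc3_mul dQ3 dR3] at e3
  obtain ⟨a1, ha1⟩ := exists_linear (homogeneousComponent_isHomogeneous 1 Q1)
  obtain ⟨b1, hb1⟩ := exists_linear (homogeneousComponent_isHomogeneous 1 R1)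
  obtain ⟨a2, ha2⟩ := exists_linear (homogeneousComponent_isHomogeneous 1 Q2)
  obtain ⟨b2, hb2⟩ := exists_linear (homogeneousComponent_isHomogeneous 1 R2)
  obtain ⟨a3, ha3⟩ := exists_linear (homogeneousComponent_isHomogeneous 1 Q3)
  obtain ⟨b3, hb3⟩ := exists_linear (homogeneousComponent_isHomogeneous 1 R3)
  let T : (Idx → K) →ₗ[K] (Fin 3 → K) × (Fin 3 → K) :=
    LinearMap.prod (LinearMap.pi ![a1, a2, a3]) (LinearMap.pi ![b1, b2, b3])
  have hr : Module.finrank K (LinearMap.range T) ≤ 3 := by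
    refine finrank_le_of_vanish (fun x : K => x) (fun x => Iff.rfl) 3 _ ?_
    rintro _ ⟨p, rfl⟩
    rw [Fin.sum_univ_three]
    show b1 p * a1 p + b2 p * a2 p + b3 p * a3 p = 0
    have := congrArg (eval p) e2
    simp only [map_add, map_mul, map_zero, ha1, ha2, ha3, hb1, hb2, hb3] at this
    linear_combination -this
  have hk : Module.finrank K (LinearMap.ker T) ≤ 4 := by
    apply finrank_le_four
    intro p hp
    have hp' : T p = 0 := hp
    have f1 : a1 p = 0 := congrArg (fun w => w.1 0) hp'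
    have f2 : a2 p = 0 := congrArg (fun w => w.1 1) hp'
    have f3 : a3 p = 0 := congrArg (fun w => w.1 2) hp'
    have g1 : b1 p = 0 := congrArg (fun w => w.2 0) hp'
    have g2 : b2 p = 0 := congrArg (fun w => w.2 1) hp'
    have g3 : b3 p = 0 := congrArg (fun w => w.2 2) hp'
    rw [e3]
    simp only [map_add, map_mul, ha1, ha2, ha3, hb1, hb2, hb3, f1, f2, f3, g1, g2, g3]
    ring
  have h1 := LinearMap.finrank_range_add_finrank_ker T
  have h2 : Module.finrank K (Idx → K) = 8 := by simp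
  omega

end Pool.Agent.Lib.MP_60b600_ag
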