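import Pool.Agent.Lib.MP_60b600_ag.Defs
import Pool.Agent.Lib.MP_60b600_ag.Lower

/-!
# MP_60b600_ag: the family and its Schmidt ranks
-/

namespace Pool.Agent.Lib.MP_60b600_ag

open MvPolynomial

universe u

section degrees

variable {R σ τ : Type*} [CommRing R]

theorem td_add {p q : MvPolynomial σ R} {k : ℕ} (hp : p.totalDegree ≤ k)
    (hq : q.totalDegree ≤ k) : (p + q).totalDegree ≤ k :=
  (totalDegree_add _ _).trans (max_le hp hq)

theorem td_sub {p q : MvPolynomial σ R} {k : ℕ} (hp : p.totalDegree ≤ k)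
    (hq : q.totalDegree ≤ k) : (p - q).totalDegree ≤ k :=
  (totalDegree_sub _ _).trans (max_le hp hq)

theorem td_mul {p q : MvPolynomial σ R} {a b k : ℕ} (hp : p.totalDegree ≤ a)
    (hq : q.totalDegree ≤ b) (h : a + b ≤ k) : (p * q).totalDegree ≤ k :=
  (totalDegree_mul _ _).trans (by omega)

theorem td_C_mul {p : MvPolynomial σ R} (c : R) {k : ℕ} (hp : p.totalDegree ≤ k) :
    (C c * p).totalDegree ≤ k :=
  td_mul (a := 0) (by rw [totalDegree_C]) hp (by omega)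

theorem td_X (i : σ) : (X i : MvPolynomial σ R).totalDegree ≤ 1 := by
  rcases subsingleton_or_nontrivial R with h | h
  · rw [Subsingleton.elim (X i : MvPolynomial σ R) 0, totalDegree_zero]
    omega
  · rw [totalDegree_X]

theorem td_X_sq (i : σ) : (X i ^ 2 : MvPolynomial σ R).totalDegree ≤ 2 := by
  rw [pow_two]
  exact td_mul (td_X i) (td_X i) (le_refl _)

theorem td_mono {p : MvPolynomial σ R} {k l : ℕ} (hp : p.totalDegree ≤ k) (h : k ≤ l) :
    p.totalDegree ≤ l := hp.trans h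

/-- Substituting polynomials of degree at most one does not increase the total degree. -/
theorem totalDegree_aeval_le (f : σ → MvPolynomial τ R) (hf : ∀ i, (f i).totalDegree ≤ 1)
    (p : MvPolynomial σ R) : (aeval f p).totalDegree ≤ p.totalDegree := by
  rw [aeval_def, eval₂_eq]
  refine (totalDegree_finsetSum _ _).trans ?_
  refine Finset.sup_le ?_
  intro d hd
  refine (totalDegree_mul _ _).trans ?_
  rw [show algebraMap R (MvPolynomial τ R) (coeff d p) = C (coeff d p) from rfl, totalDegree_C,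
    zero_add]
  refine (totalDegree_finsetProd _ _).trans ?_
  refine le_trans ?_ (le_totalDegree hd)
  rw [Finsupp.sum]
  refine Finset.sum_le_sum ?_
  intro i _
  refine (totalDegree_pow _ _).trans ?_
  calc d i * (f i).totalDegree ≤ d i * 1 := Nat.mul_le_mul_left _ (hf i)
    _ = d i := mul_one _

end degrees

variable {K : Type u} [Field K]

/-- The family over the affine plane with coordinates `(s,t)`:
`x a² + y b² + u c² + v d² + s (1 + t w) (x y - u v)`,
where `(a,b,c,d,x,y,u,v,w)` are the nine variables. -/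
noncomputable def fam (K : Type u) [Field K] : MvPolynomial (Fin 9) (MvPolynomial (Fin 2) K) :=
  X 4 * X 0 ^ 2 + X 5 * X 1 ^ 2 + X 6 * X 2 ^ 2 + X 7 * X 3 ^ 2 +
    C (X 0) * (1 + C (X 1) * X 8) * (X 4 * X 5 - X 6 * X 7)

theorem member_fam (st : Fin 2 → K) : member (fam K) st =
    X 4 * X 0 ^ 2 + X 5 * X 1 ^ 2 + X 6 * X 2 ^ 2 + X 7 * X 3 ^ 2 +
    C (st 0) * (1 + C (st 1) * X 8) * (X 4 * X 5 - X 6 * X 7) := by
  simp [member, fam]

theorem totalDegree_member (st : Fin 2 → K) : (member (fam K) st).totalDegree = 3 := by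
  apply le_antisymm
  · rw [member_fam]
    refine td_add (td_add (td_add (td_add ?_ ?_) ?_) ?_) ?_
    · exact td_mul (td_X _) (td_X_sq _) (le_refl _)
    · exact td_mul (td_X _) (td_X_sq _) (le_refl _)
    · exact td_mul (td_X _) (td_X_sq _) (le_refl _)
    · exact td_mul (td_X _) (td_X_sq _) (le_refl _)
    · refine td_mul (a := 1) (b := 2) (td_C_mul _ (td_add ?_ (td_C_mul _ (td_X _)))) ?_ (by omega)
      · rw [totalDegree_one]; omega
      · exact td_sub (td_mul (td_X _) (td_X _) (le_refl _)) (td_mul (td_X _) (td_X _) (le_refl _))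
  · have h := totalDegree_aeval_le (τ := Unit) (R := K)
      (![X (), 0, 0, 0, X (), 0, 0, 0, 0] : Fin 9 → MvPolynomial Unit K) (by
        intro i
        fin_cases i
        · exact td_X _
        · simp
        · simp
        · simp
        · exact td_X _
        · simp
        · simp
        · simp
        · simp) (member (fam K) st)
    refine le_trans ?_ h
    have h2 : (aeval (![X (), 0, 0, 0, X (), 0, 0, 0, 0] : Fin 9 → MvPolynomial Unit K))
        (member (fam K) st) = X () ^ 3 := by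
      rw [member_fam]
      simp
      ring
    rw [h2, totalDegree_X_pow]

/-- The substitution showing that the rank is at least four. -/
theorem aeval_member (st : Fin 2 → K) (h : st 0 = 0 ∨ st 1 ≠ 0) :
    aeval (![X (Sum.inl 0), X (Sum.inl 1), X (Sum.inl 2), X (Sum.inl 3), X (Sum.inr 0),
      X (Sum.inr 1), X (Sum.inr 2), X (Sum.inr 3), C (-(st 1)⁻¹)] : Fin 9 → MvPolynomial Idx K)
      (member (fam K) st) = cubicH K := by
  have h1 : st 0 * (1 + st 1 * (-(st 1)⁻¹)) = 0 := by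
    rcases h with h | h
    · rw [h, zero_mul]
    · rw [mul_neg, mul_inv_cancel₀ h]; ring
  have h2 : (C (st 0) * (1 + C (st 1) * C (-(st 1)⁻¹)) : MvPolynomial Idx K) = 0 := by
    rw [← C_mul, ← C_1, ← C_add, ← C_mul, h1, C_0]
  rw [member_fam]
  have h3 : aeval (![X (Sum.inl 0), X (Sum.inl 1), X (Sum.inl 2), X (Sum.inl 3), X (Sum.inr 0),
      X (Sum.inr 1), X (Sum.inr 2), X (Sum.inr 3), C (-(st 1)⁻¹)] : Fin 9 → MvPolynomial Idx K)
      (X 4 * X 0 ^ 2 + X 5 * X 1 ^ 2 + X 6 * X 2 ^ 2 + X 7 * X 3 ^ 2 +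
    C (st 0) * (1 + C (st 1) * X 8) * (X 4 * X 5 - X 6 * X 7)) =
      (X (Sum.inr 0) * X (Sum.inl 0) ^ 2 + X (Sum.inr 1) * X (Sum.inl 1) ^ 2 +
      X (Sum.inr 2) * X (Sum.inl 2) ^ 2 + X (Sum.inr 3) * X (Sum.inl 3) ^ 2) +
      (C (st 0) * (1 + C (st 1) * C (-(st 1)⁻¹))) *
      (X (Sum.inr 0) * X (Sum.inr 1) - X (Sum.inr 2) * X (Sum.inr 3)) := by
    simp
  rw [h3, h2, zero_mul, add_zero, cubicH, Fin.sum_univ_four]

/-- Lower bound for the length of decompositions. -/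
theorem four_le_of_hasDecomp [IsAlgClosed K] (st : Fin 2 → K) (h : st 0 = 0 ∨ st 1 ≠ 0) (r : ℕ)
    (hr : HasDecomp (member (fam K) st) r) : 4 ≤ r := by
  by_contra hlt
  obtain ⟨Q, R, hdeg, hsum⟩ := hr
  rw [totalDegree_member] at hdeg
  set φ : MvPolynomial (Fin 9) K →ₐ[K] MvPolynomial Idx K :=
    aeval (![X (Sum.inl 0), X (Sum.inl 1), X (Sum.inl 2), X (Sum.inl 3), X (Sum.inr 0),
      X (Sum.inr 1), X (Sum.inr 2), X (Sum.inr 3), C (-(st 1)⁻¹)] : Fin 9 → MvPolynomial Idx K)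
    with hφ
  have hφd : ∀ p, (φ p).totalDegree ≤ p.totalDegree := by
    intro p
    apply totalDegree_aeval_le
    intro i
    fin_cases i
    · exact td_X _
    · exact td_X _
    · exact td_X _
    · exact td_X _
    · exact td_X _
    · exact td_X _
    · exact td_X _
    · exact td_X _
    · show (C (-(st 1)⁻¹) : MvPolynomial Idx K).totalDegree ≤ 1
      rw [totalDegree_C]; omega
  have hH : cubicH K = ∑ i, φ (Q i) * φ (R i) := by
    rw [← aeval_member st h, hsum, map_sum]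
    simp only [map_mul]
    rfl
  have hQ : ∀ i, (φ (Q i)).totalDegree ≤ 2 := fun i =>
    (hφd _).trans (Nat.lt_succ_iff.1 (hdeg i).1)
  have hR : ∀ i, (φ (R i)).totalDegree ≤ 2 := fun i =>
    (hφd _).trans (Nat.lt_succ_iff.1 (hdeg i).2)
  have h0 : (0 : MvPolynomial Idx K).totalDegree ≤ 2 := by rw [totalDegree_zero]; omega
  have hr4 : r = 0 ∨ r = 1 ∨ r = 2 ∨ r = 3 := by omega
  rcases hr4 with rfl | rfl | rfl | rfl
  · exact no_three h0 h0 h0 h0 h0 h0 (by rw [hH]; simp)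
  · exact no_three (hQ 0) (hR 0) h0 h0 h0 h0 (by rw [hH]; simp)
  · exact no_three (hQ 0) (hR 0) (hQ 1) (hR 1) h0 h0 (by rw [hH, Fin.sum_univ_two]; simp)
  · exact no_three (hQ 0) (hR 0) (hQ 1) (hR 1) (hQ 2) (hR 2) (by rw [hH, Fin.sum_univ_three])

/-- On the punctured line the rank is at most three. -/
theorem hasDecomp_three (st : Fin 2 → K) (hs : st 0 ≠ 0) (ht : st 1 = 0) :
    HasDecomp (member (fam K) st) 3 := by
  refine ⟨![C (st 0)⁻¹ * (X 0 ^ 2 + C (st 0) * X 5), C (st 0)⁻¹ * (X 2 ^ 2 - C (st 0) * X 7),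
      C (st 0)⁻¹ * (X 2 * X 3 - X 0 * X 1)],
    ![X 1 ^ 2 + C (st 0) * X 4, C (-1) * (X 3 ^ 2 - C (st 0) * X 6), X 2 * X 3 + X 0 * X 1],
    ?_, ?_⟩
  · rw [totalDegree_member]
    intro i
    have hx : ∀ j : Fin 9, (X j : MvPolynomial (Fin 9) K).totalDegree ≤ 2 := fun j =>
      td_mono (td_X j) (by omega)
    have hxx : ∀ j k : Fin 9, (X j * X k : MvPolynomial (Fin 9) K).totalDegree ≤ 2 := fun j k =>
      td_mul (td_X j) (td_X k) (le_refl _)
    fin_cases i
    · exact ⟨Nat.lt_succ_iff.2 (td_C_mul _ (td_add (td_X_sq _) (td_C_mul _ (hx _)))),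
        Nat.lt_succ_iff.2 (td_add (td_X_sq _) (td_C_mul _ (hx _)))⟩
    · exact ⟨Nat.lt_succ_iff.2 (td_C_mul _ (td_sub (td_X_sq _) (td_C_mul _ (hx _)))),
        Nat.lt_succ_iff.2 (td_C_mul _ (td_sub (td_X_sq _) (td_C_mul _ (hx _))))⟩
    · exact ⟨Nat.lt_succ_iff.2 (td_C_mul _ (td_sub (hxx _ _) (hxx _ _))),
        Nat.lt_succ_iff.2 (td_add (hxx _ _) (hxx _ _))⟩
  · rw [member_fam, ht, Fin.sum_univ_three]
    have hC : (C (st 0)⁻¹ * C (st 0) : MvPolynomial (Fin 9) K) = 1 := by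
      rw [← C_mul, inv_mul_cancel₀ hs, C_1]
    simp only [Matrix.cons_val_zero, Matrix.cons_val_one, Matrix.cons_val_two, Matrix.head_cons,
      Matrix.tail_cons, C_0, C_neg, C_1]
    show _ = _
    linear_combination (-(X 4 * X 0 ^ 2 + X 5 * X 1 ^ 2 + X 6 * X 2 ^ 2 + X 7 * X 3 ^ 2 +
      C (st 0) * (X 4 * X 5 - X 6 * X 7))) * hC

/-- Everywhere the rank is at most four. -/
theorem hasDecomp_four (st : Fin 2 → K) : HasDecomp (member (fam K) st) 4 := by
  have hx : ∀ j : Fin 9, (X j : MvPolynomial (Fin 9) K).totalDegree ≤ 2 := fun j =>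
    td_mono (td_X j) (by omega)
  have hxx : ∀ j k : Fin 9, (X j * X k : MvPolynomial (Fin 9) K).totalDegree ≤ 2 := fun j k =>
    td_mul (td_X j) (td_X k) (le_refl _)
  by_cases hs : st 0 = 0
  · refine ⟨![X 4, X 5, X 6, X 7], ![X 0 ^ 2, X 1 ^ 2, X 2 ^ 2, X 3 ^ 2], ?_, ?_⟩
    · rw [totalDegree_member]
      intro i
      fin_cases i
      · exact ⟨Nat.lt_succ_iff.2 (hx _), Nat.lt_succ_iff.2 (td_X_sq _)⟩
      · exact ⟨Nat.lt_succ_iff.2 (hx _), Nat.lt_succ_iff.2 (td_X_sq _)⟩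
      · exact ⟨Nat.lt_succ_iff.2 (hx _), Nat.lt_succ_iff.2 (td_X_sq _)⟩
      · exact ⟨Nat.lt_succ_iff.2 (hx _), Nat.lt_succ_iff.2 (td_X_sq _)⟩
    · rw [member_fam, hs, Fin.sum_univ_four, C_0, zero_mul, zero_mul, add_zero]
      rfl
  · refine ⟨![C (st 0)⁻¹ * (X 0 ^ 2 + C (st 0) * X 5), C (st 0)⁻¹ * (X 2 ^ 2 - C (st 0) * X 7),
      C (st 0)⁻¹ * (X 2 * X 3 - X 0 * X 1), C (st 0 * st 1) * X 8],
      ![X 1 ^ 2 + C (st 0) * X 4, C (-1) * (X 3 ^ 2 - C (st 0) * X 6), X 2 * X 3 + X 0 * X 1,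
        X 4 * X 5 - X 6 * X 7],
      ?_, ?_⟩
    · rw [totalDegree_member]
      intro i
      fin_cases i
      · exact ⟨Nat.lt_succ_iff.2 (td_C_mul _ (td_add (td_X_sq _) (td_C_mul _ (hx _)))),
          Nat.lt_succ_iff.2 (td_add (td_X_sq _) (td_C_mul _ (hx _)))⟩
      · exact ⟨Nat.lt_succ_iff.2 (td_C_mul _ (td_sub (td_X_sq _) (td_C_mul _ (hx _)))),
          Nat.lt_succ_iff.2 (td_C_mul _ (td_sub (td_X_sq _) (td_C_mul _ (hx _))))⟩
      · exact ⟨Nat.lt_succ_iff.2 (td_C_mul _ (td_sub (hxx _ _) (hxx _ _))),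
          Nat.lt_succ_iff.2 (td_add (hxx _ _) (hxx _ _))⟩
      · exact ⟨Nat.lt_succ_iff.2 (td_C_mul _ (hx _)),
          Nat.lt_succ_iff.2 (td_sub (hxx _ _) (hxx _ _))⟩
    · rw [member_fam, Fin.sum_univ_four]
      have hC : (C (st 0)⁻¹ * C (st 0) : MvPolynomial (Fin 9) K) = 1 := by
        rw [← C_mul, inv_mul_cancel₀ hs, C_1]
      show _ = C (st 0)⁻¹ * (X 0 ^ 2 + C (st 0) * X 5) * (X 1 ^ 2 + C (st 0) * X 4) +
        C (st 0)⁻¹ * (X 2 ^ 2 - C (st 0) * X 7) * (C (-1) * (X 3 ^ 2 - C (st 0) * X 6)) +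
        C (st 0)⁻¹ * (X 2 * X 3 - X 0 * X 1) * (X 2 * X 3 + X 0 * X 1) +
        C (st 0 * st 1) * X 8 * (X 4 * X 5 - X 6 * X 7)
      rw [C_neg, C_1, C_mul]
      linear_combination (-(X 4 * X 0 ^ 2 + X 5 * X 1 ^ 2 + X 6 * X 2 ^ 2 + X 7 * X 3 ^ 2 +
        C (st 0) * (X 4 * X 5 - X 6 * X 7))) * hC

theorem schmidtRank_le_four (st : Fin 2 → K) : schmidtRank (member (fam K) st) ≤ 4 :=
  Nat.sInf_le (hasDecomp_four st)

theorem schmidtRank_eq_four [IsAlgClosed K] (st : Fin 2 → K) (h : st 0 = 0 ∨ st 1 ≠ 0) :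
    schmidtRank (member (fam K) st) = 4 :=
  le_antisymm (schmidtRank_le_four st)
    (four_le_of_hasDecomp st h _
      (Nat.sInf_mem (s := {r | HasDecomp (member (fam K) st) r}) ⟨4, hasDecomp_four st⟩))

theorem schmidtRank_le_three (st : Fin 2 → K) (hs : st 0 ≠ 0) (ht : st 1 = 0) :
    schmidtRank (member (fam K) st) ≤ 3 :=
  Nat.sInf_le (hasDecomp_three st hs ht)

theorem maxRankLocus_fam [IsAlgClosed K] :
    maxRankLocus (fam K) = {st | st 0 = 0 ∨ st 1 ≠ 0} := by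
  ext st
  constructor
  · intro h
    by_contra hcon
    have hcon' : st 0 ≠ 0 ∧ st 1 = 0 := by
      constructor
      · intro h0; exact hcon (Or.inl h0)
      · by_contra h1; exact hcon (Or.inr h1)
    have h1 := h (fun _ => 0)
    rw [schmidtRank_eq_four _ (Or.inl rfl)] at h1
    have h2 := schmidtRank_le_three st hcon'.1 hcon'.2
    omega
  · intro h s
    rw [schmidtRank_eq_four st h]
    exact schmidtRank_le_four s

end Pool.Agent.Lib.MP_60b600_ag
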