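import Pool.Agent.Lib.MP_60b600_ag.Vanish

/-!
# MP_60b600_ag: the cubic `H = ∑ Lᵢ zᵢ²` and its restrictions to subspaces of dimension six
-/

namespace Pool.Agent.Lib.MP_60b600_ag

open MvPolynomial

universe u

variable {K : Type u} [Field K]

/-- index type of the eight variables: `inl i` is `zᵢ`, `inr i` is `Lᵢ` -/
abbrev Idx : Type := Fin 4 ⊕ Fin 4

/-- The cubic `H = ∑ Lᵢ zᵢ²` in eight variables. -/
noncomputable def cubicH (K : Type u) [Field K] : MvPolynomial Idx K :=
  ∑ i : Fin 4, X (Sum.inr i) * X (Sum.inl i) ^ 2

theorem eval_cubicH (p : Idx → K) :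
    eval p (cubicH K) = ∑ i : Fin 4, p (Sum.inr i) * p (Sum.inl i) ^ 2 := by
  simp [cubicH]

theorem cubicH_isHomogeneous : (cubicH K).IsHomogeneous 3 := by
  unfold cubicH
  apply IsHomogeneous.sum
  intro i _
  exact (isHomogeneous_X K _).mul (isHomogeneous_X_pow _ 2)

/-- A linear subspace on which `H` vanishes has dimension at most four. -/
theorem finrank_le_four (W : Submodule K (Idx → K))
    (hW : ∀ w ∈ W, eval w (cubicH K) = 0) : Module.finrank K W ≤ 4 := by
  let e : (Idx → K) →ₗ[K] (Fin 4 → K) × (Fin 4 → K) :=
    LinearMap.prod (LinearMap.funLeft K K Sum.inl) (LinearMap.funLeft K K Sum.inr)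
  have he : Function.Injective e := by
    intro a b hab
    funext i
    rcases i with i | i
    · exact congrArg (fun p => p.1 i) hab
    · exact congrArg (fun p => p.2 i) hab
  have h1 : Module.finrank K (W.map e) = Module.finrank K W :=
    (Submodule.equivMapOfInjective e he W).finrank_eq.symm
  rw [← h1]
  refine finrank_le_of_vanish (fun x : K => x ^ 2) (fun x => pow_eq_zero_iff two_ne_zero) 4
    (W.map e) ?_
  rintro _ ⟨w, hw, rfl⟩
  have := hW w hw
  rw [eval_cubicH] at this
  exact this

/-- Same statement for an injective linear map into `K⁸`. -/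
theorem finrank_le_four_of_injective {E : Type*} [AddCommGroup E] [Module K E]
    (ι : E →ₗ[K] (Idx → K)) (hι : Function.Injective ι)
    (U : Submodule K E) (hU : ∀ x ∈ U, eval (ι x) (cubicH K) = 0) :
    Module.finrank K U ≤ 4 := by
  have h1 : Module.finrank K (U.map ι) = Module.finrank K U :=
    (Submodule.equivMapOfInjective ι hι U).finrank_eq.symm
  rw [← h1]
  apply finrank_le_four
  rintro _ ⟨x, hx, rfl⟩
  exact hU x hx

/-- A homogeneous polynomial of degree one is a linear functional. -/
theorem exists_linear {σ : Type*} [Finite σ] {p : MvPolynomial σ K} (hp : p.IsHomogeneous 1) :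
    ∃ ℓ : (σ → K) →ₗ[K] K, ∀ x, eval x p = ℓ x := by
  have h1 : p ∈ homogeneousSubmodule σ K 1 := hp
  clear hp
  rw [homogeneousSubmodule_one_eq_span_X] at h1
  induction h1 using Submodule.span_induction with
  | mem x h =>
    obtain ⟨i, rfl⟩ := h
    exact ⟨LinearMap.proj i, fun x => by simp⟩
  | zero => exact ⟨0, fun x => by simp⟩
  | add x y _ _ hx hy => 
    obtain ⟨a, ha⟩ := hx
    obtain ⟨b, hb⟩ := hy
    exact ⟨a + b, fun z => by simp [ha, hb]⟩
  | smul c x _ hx =>
    obtain ⟨a, ha⟩ := hx
    exact ⟨c • a, fun z => by simp [ha, smul_eval]⟩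

/-- Homogeneous components of a product. -/
theorem hc_mul {σ R : Type*} [CommSemiring R] (p q : MvPolynomial σ R) (n : ℕ) :
    homogeneousComponent n (p * q) =
      ∑ x ∈ Finset.HasAntidiagonal.antidiagonal n, homogeneousComponent x.1 p * homogeneousComponent x.2 q := by
  classical
  induction p using MvPolynomial.induction_on' with
  | add p1 p2 h1 h2 =>
    rw [add_mul, map_add, h1, h2, ← Finset.sum_add_distrib]
    simp [add_mul]
  | monomial d a =>
    induction q using MvPolynomial.induction_on' with
    | add q1 q2 h1 h2 =>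
      rw [mul_add, map_add, h1, h2, ← Finset.sum_add_distrib]
      simp [mul_add]
    | monomial e b =>
      have hd : ∀ k, homogeneousComponent k (monomial d a) = if k = d.degree then monomial d a else 0 :=
        fun k => homogeneousComponent_of_mem (isHomogeneous_monomial a rfl)
      have he : ∀ k, homogeneousComponent k (monomial e b) = if k = e.degree then monomial e b else 0 :=
        fun k => homogeneousComponent_of_mem (isHomogeneous_monomial b rfl)
      have hde : homogeneousComponent n (monomial (d + e) (a * b)) =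
          if n = (d + e).degree then monomial (d + e) (a * b) else 0 :=
        homogeneousComponent_of_mem (isHomogeneous_monomial (a * b) rfl)
      rw [monomial_mul, hde]
      simp only [hd, he]
      rw [map_add]
      by_cases h : n = d.degree + e.degree
      · rw [if_pos h, Finset.sum_eq_single (d.degree, e.degree)]
        · simp [monomial_mul]
        · rintro ⟨x, y⟩ _ hne
          by_cases hx : x = d.degree
          · by_cases hy : y = e.degree
            · exact absurd (by rw [hx, hy]) hne
            · simp [hy]
          · simp [hx]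
        · intro hn
          exact absurd (Finset.HasAntidiagonal.mem_antidiagonal.2 h.symm) hn
      · rw [if_neg h]
        symm
        apply Finset.sum_eq_zero
        rintro ⟨x, y⟩ hxy
        rw [Finset.HasAntidiagonal.mem_antidiagonal] at hxy
        by_cases hx : x = d.degree
        · by_cases hy : y = e.degree
          · exact absurd (by rw [← hxy, ← hx, ← hy]) h
          · simp [hy]
        · simp [hx]

/-- The restriction of `H` to a six-dimensional subspace is nonzero and has no factorization into
nonconstant factors. -/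
theorem restriction_ne_zero {h : MvPolynomial (Fin 6) K}
    (ι : (Fin 6 → K) →ₗ[K] (Idx → K)) (hι : Function.Injective ι)
    (he : ∀ x, eval x h = eval (ι x) (cubicH K)) : h ≠ 0 := by
  rintro rfl
  have h1 := finrank_le_four_of_injective ι hι ⊤ (fun x _ => by rw [← he]; simp)
  rw [finrank_top, Module.finrank_fin_fun] at h1
  omega

theorem restriction_aux {h : MvPolynomial (Fin 6) K} (hh : h.IsHomogeneous 3)
    (ι : (Fin 6 → K) →ₗ[K] (Idx → K)) (hι : Function.Injective ι)
    (he : ∀ x, eval x h = eval (ι x) (cubicH K)) (f g : MvPolynomial (Fin 6) K)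
    (hfg : h = f * g) (hf : f.totalDegree = 1) (hg : g.totalDegree = 2) : False := by
  have h1 : h = homogeneousComponent 1 f * homogeneousComponent 2 g := by
    have h2 : homogeneousComponent 3 h = h := homogeneousComponent_eq_self hh
    rw [← h2]
    conv_lhs => rw [hfg]
    rw [hc_mul]
    rw [Finset.sum_eq_single (1, 2)]
    · rintro ⟨x, y⟩ hxy hne
      rw [Finset.HasAntidiagonal.mem_antidiagonal] at hxy
      simp only at hxy ⊢
      by_cases hx : 1 < x
      · rw [homogeneousComponent_eq_zero (n := x) (φ := f) (by omega), zero_mul]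
      · by_cases hy : 2 < y
        · rw [homogeneousComponent_eq_zero (n := y) (φ := g) (by omega), mul_zero]
        · exact absurd (Prod.ext (by show x = 1; omega) (by show y = 2; omega)) hne
    · intro hn
      exact absurd (Finset.HasAntidiagonal.mem_antidiagonal.2
        (show ((1, 2) : ℕ × ℕ).1 + ((1, 2) : ℕ × ℕ).2 = 3 from rfl)) hn
  obtain ⟨ℓ, hℓ⟩ := exists_linear (homogeneousComponent_isHomogeneous 1 f)
  have h3 := finrank_le_four_of_injective ι hι (LinearMap.ker ℓ) (fun x hx => by
    rw [← he, h1, map_mul, hℓ, LinearMap.mem_ker.1 hx, zero_mul])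
  have h4 := LinearMap.finrank_range_add_finrank_ker ℓ
  have h5 : Module.finrank K (LinearMap.range ℓ) ≤ 1 := by
    have := Submodule.finrank_le (LinearMap.range ℓ)
    rwa [Module.finrank_self] at this
  rw [Module.finrank_fin_fun] at h4
  omega

theorem restriction_irred {h : MvPolynomial (Fin 6) K} (hh : h.IsHomogeneous 3)
    (ι : (Fin 6 → K) →ₗ[K] (Idx → K)) (hι : Function.Injective ι)
    (he : ∀ x, eval x h = eval (ι x) (cubicH K)) (f g : MvPolynomial (Fin 6) K)
    (hfg : h = f * g) : f.totalDegree = 0 ∨ g.totalDegree = 0 := by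
  have h0 := restriction_ne_zero ι hι he
  have hf : f ≠ 0 := by
    rintro rfl
    exact h0 (by rw [hfg, zero_mul])
  have hg : g ≠ 0 := by
    rintro rfl
    exact h0 (by rw [hfg, mul_zero])
  have h1 : f.totalDegree + g.totalDegree = 3 := by
    rw [← totalDegree_mul_of_isDomain hf hg, ← hfg]
    exact hh.totalDegree h0
  by_contra hcon
  push Not at hcon
  obtain ⟨ha, hb⟩ := hcon
  have h2 : (f.totalDegree = 1 ∧ g.totalDegree = 2) ∨ (g.totalDegree = 1 ∧ f.totalDegree = 2) := by
    omega
  rcases h2 with ⟨h3, h4⟩ | ⟨h3, h4⟩
  · exact restriction_aux hh ι hι he f g hfg h3 h4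
  · exact restriction_aux hh ι hι he g f (by rw [hfg, mul_comm]) h3 h4

end Pool.Agent.Lib.MP_60b600_ag
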