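import Mathlib

/-!
# MP_60b600_ag: linear spaces on which `∑ yᵢ φ(xᵢ)` vanishes
-/

namespace Pool.Agent.Lib.MP_60b600_ag

universe u

variable {K : Type u} [Field K]

/-- forget the coordinate `0` in both components -/
noncomputable def dropZ (K : Type u) [Field K] (m : ℕ) :
    ((Fin (m+1) → K) × (Fin (m+1) → K)) →ₗ[K] ((Fin m → K) × (Fin m → K)) :=
  LinearMap.prodMap (LinearMap.funLeft K K Fin.succ) (LinearMap.funLeft K K Fin.succ)

theorem dropZ_fst (m : ℕ) (w : (Fin (m+1) → K) × (Fin (m+1) → K)) (i : Fin m) :
    (dropZ K m w).1 i = w.1 i.succ := rfl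

theorem dropZ_snd (m : ℕ) (w : (Fin (m+1) → K) × (Fin (m+1) → K)) (i : Fin m) :
    (dropZ K m w).2 i = w.2 i.succ := rfl

/-- If `φ` vanishes only at zero and `∑ yᵢ φ(xᵢ)` vanishes on the linear subspace `W` of
`Kᵐ × Kᵐ`, then `dim W ≤ m`. -/
theorem finrank_le_of_vanish (φ : K → K) (hφ : ∀ x, φ x = 0 ↔ x = 0) :
    ∀ (m : ℕ) (W : Submodule K ((Fin m → K) × (Fin m → K))),
      (∀ w ∈ W, ∑ i, w.2 i * φ (w.1 i) = 0) → Module.finrank K W ≤ m := by
  intro m
  induction m with
  | zero =>
    intro W _
    have h1 := Submodule.finrank_le W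
    rw [Module.finrank_prod, Module.finrank_fin_fun] at h1
    exact h1
  | succ m ih =>
    intro W hW
    by_cases hc : ∀ w ∈ W, w.1 0 = 0
    · -- all first coordinates vanish
      have h1 : Module.finrank K (W.map (dropZ K m)) ≤ m := by
        apply ih
        rintro _ ⟨w, hw, rfl⟩
        have h2 := hW w hw
        rw [Fin.sum_univ_succ, hc w hw, (hφ 0).2 rfl, mul_zero, zero_add] at h2
        exact h2
      let f : W →ₗ[K] (W.map (dropZ K m)) × K :=
        LinearMap.prod ((dropZ K m).restrict (p := W) (q := W.map (dropZ K m))
          (fun w hw => ⟨w, hw, rfl⟩))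
          (((LinearMap.proj 0).comp (LinearMap.snd K _ _)).domRestrict W)
      have hf : Function.Injective f := by
        rw [← LinearMap.ker_eq_bot, LinearMap.ker_eq_bot']
        rintro ⟨w, hw⟩ hfw
        have h3 : dropZ K m w = 0 := congrArg (fun p => (p.1 : (Fin m → K) × (Fin m → K))) hfw
        have h4 : w.2 0 = 0 := congrArg (fun p => p.2) hfw
        have h5 := hc w hw
        apply Subtype.ext
        refine Prod.ext ?_ ?_
        · funext i
          refine Fin.cases ?_ ?_ i
          · exact h5
          · intro j
            have := congrArg (fun p => p.1 j) h3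
            exact this
        · funext i
          refine Fin.cases ?_ ?_ i
          · exact h4
          · intro j
            have := congrArg (fun p => p.2 j) h3
            exact this
      have h6 := LinearMap.finrank_le_finrank_of_injective hf
      rw [Module.finrank_prod, Module.finrank_self] at h6
      omega
    · push Not at hc
      obtain ⟨w1, hw1, hw10⟩ := hc
      let z : W →ₗ[K] K := ((LinearMap.proj 0).comp (LinearMap.fst K _ _)).domRestrict W
      have hz : ∀ w : W, z w = w.1.1 0 := fun w => rfl
      let W' : Submodule K ((Fin (m+1) → K) × (Fin (m+1) → K)) :=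
        W ⊓ LinearMap.ker ((LinearMap.proj 0).comp (LinearMap.fst K (Fin (m+1) → K) (Fin (m+1) → K)))
      have hW' : ∀ w, w ∈ W' ↔ w ∈ W ∧ w.1 0 = 0 := by
        intro w
        exact Iff.rfl
      have h1 : Module.finrank K (W'.map (dropZ K m)) ≤ m := by
        apply ih
        rintro _ ⟨w, hw, rfl⟩
        obtain ⟨hw, hw0⟩ := (hW' w).1 hw
        have h2 := hW w hw
        rw [Fin.sum_univ_succ, hw0, (hφ 0).2 rfl, mul_zero, zero_add] at h2
        exact h2
      let f : LinearMap.ker z →ₗ[K] (W'.map (dropZ K m)) :=
        { toFun := fun w => ⟨dropZ K m w.1.1, ⟨w.1.1, (hW' _).2 ⟨w.1.2, w.2⟩, rfl⟩⟩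
          map_add' := by
            intro a b
            apply Subtype.ext
            exact map_add (dropZ K m) _ _
          map_smul' := by
            intro c a
            apply Subtype.ext
            exact map_smul (dropZ K m) _ _ }
      have hf : Function.Injective f := by
        rw [injective_iff_map_eq_zero]
        rintro ⟨⟨w, hw⟩, hzw⟩ hfw
        have h3 : dropZ K m w = 0 := congrArg (fun p => (p.1 : (Fin m → K) × (Fin m → K))) hfw
        have h5 : w.1 0 = 0 := hzw
        have h6 : ∀ j : Fin m, w.1 j.succ = 0 := fun j => congrArg (fun p => p.1 j) h3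
        have h7 : ∀ j : Fin m, w.2 j.succ = 0 := fun j => congrArg (fun p => p.2 j) h3
        have h4 : w.2 0 = 0 := by
          have h8 := hW _ (W.add_mem hw1 hw)
          have h9 := hW _ hw1
          rw [Fin.sum_univ_succ] at h8 h9
          have h10 : ∀ j : Fin m, (w1 + w).2 j.succ * φ ((w1 + w).1 j.succ)
              = w1.2 j.succ * φ (w1.1 j.succ) := by
            intro j
            show (w1.2 j.succ + w.2 j.succ) * φ (w1.1 j.succ + w.1 j.succ) = _
            rw [h6, h7, add_zero, add_zero]
          rw [Finset.sum_congr rfl (fun j _ => h10 j)] at h8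
          have h11 : (w1 + w).2 0 * φ ((w1 + w).1 0)
              = (w1.2 0 + w.2 0) * φ (w1.1 0) := by
            show (w1.2 0 + w.2 0) * φ (w1.1 0 + w.1 0) = _
            rw [h5, add_zero]
          rw [h11] at h8
          have h12 : w.2 0 * φ (w1.1 0) = 0 := by linear_combination h8 - h9
          rcases mul_eq_zero.1 h12 with h | h
          · exact h
          · exact absurd ((hφ _).1 h) hw10
        apply Subtype.ext
        apply Subtype.ext
        refine Prod.ext ?_ ?_
        · funext i
          refine Fin.cases ?_ ?_ i
          · exact h5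
          · exact h6
        · funext i
          refine Fin.cases ?_ ?_ i
          · exact h4
          · exact h7
      have h6 := LinearMap.finrank_le_finrank_of_injective hf
      have h7 := LinearMap.finrank_range_add_finrank_ker z
      have h8 : Module.finrank K (LinearMap.range z) ≤ 1 := by
        have := Submodule.finrank_le (LinearMap.range z)
        rwa [Module.finrank_self] at this
      omega

end Pool.Agent.Lib.MP_60b600_ag
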