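import Pool.Agent.Lib.MP_60b600_ag.Defs
import Pool.Agent.Lib.MP_60b600_ag.Tools

/-!
# MP_60b600_ag: the punctured line together with the complement of the line is not locally closed
-/

namespace Pool.Agent.Lib.MP_60b600_ag

open MvPolynomial

universe u

variable {K : Type u} [Field K]

/-- A nonempty Zariski open subset of a line is cofinite. -/
theorem line_open {m : ℕ} {O : Set (Fin m → K)} (hO : @IsOpen _ (zariski K m) O)
    (a b : Fin m → K) (hne : ({τ : K | (fun i => a i + τ * b i) ∈ O}).Nonempty) :
    ({τ : K | (fun i => a i + τ * b i) ∈ O}ᶜ).Finite := by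
  have hcont : @Continuous K (Fin m → K) TopologicalSpace.cofinite (zariski K m)
      (fun τ => fun i => a i + τ * b i) := by
    rw [zariski, continuous_generateFrom_iff]
    rintro s ⟨f, rfl⟩
    obtain ⟨p, hp⟩ := exists_line f a b
    rintro ⟨τ, hτ⟩
    have hp0 : p ≠ 0 := by
      rintro rfl
      apply hτ
      rw [← hp τ, Polynomial.eval_zero]
    refine (Polynomial.finite_setOfPred_isRoot hp0).subset ?_
    intro σ hσ
    by_contra hcon
    apply hσ
    show eval (fun i => a i + σ * b i) f ≠ 0
    rw [← hp σ]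
    exact hcon
  exact (@Continuous.isOpen_preimage _ _ TopologicalSpace.cofinite (zariski K m) _ hcont O hO) hne

theorem not_locallyClosed [Infinite K] :
    ¬ @IsLocallyClosed _ (zariski K 2) {st : Fin 2 → K | st 0 = 0 ∨ st 1 ≠ 0} := by
  rintro ⟨O, Z, hO, hZ, h⟩
  have hZuniv : ∀ st, st ∈ Z := by
    intro st
    by_contra hst
    have hZc : @IsOpen _ (zariski K 2) Zᶜ := (@isOpen_compl_iff _ Z (zariski K 2)).2 hZ
    have hfin := line_open hZc st ![0, 1] ⟨0, by
      show (fun i => st i + 0 * (![0, 1] : Fin 2 → K) i) ∉ Z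
      simpa using hst⟩
    have hinf : ({τ : K | τ ≠ - st 1}).Infinite :=
      (Set.finite_singleton (- st 1)).infinite_compl
    apply hinf
    refine hfin.subset ?_
    intro τ hτ hcon
    apply hcon
    have : (fun i => st i + τ * (![0, 1] : Fin 2 → K) i) ∈
        {st : Fin 2 → K | st 0 = 0 ∨ st 1 ≠ 0} := by
      right
      intro h0
      apply hτ
      have h1 : st 1 + τ * 1 = 0 := h0
      linear_combination h1
    rw [h] at this
    exact this.2
  have hOU : O = {st : Fin 2 → K | st 0 = 0 ∨ st 1 ≠ 0} := by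
    rw [h]
    ext st
    exact ⟨fun hx => ⟨hx, hZuniv st⟩, fun hx => hx.1⟩
  rw [hOU] at hO
  have hfin := line_open hO ![0, 0] ![1, 0] ⟨0, by
    left
    simp⟩
  have hinf : ({τ : K | τ ≠ 0}).Infinite := (Set.finite_singleton (0 : K)).infinite_compl
  apply hinf
  refine hfin.subset ?_
  intro τ hτ hcon
  rcases hcon with hcon | hcon
  · apply hτ
    have h1 : (0 : K) + τ * 1 = 0 := hcon
    linear_combination h1
  · apply hcon
    show (0 : K) + τ * 0 = 0
    ring

end Pool.Agent.Lib.MP_60b600_ag
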